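import Pool.Agent.V8H31.DiscJoint

set_option autoImplicit false

/-!
# The uniform distribution of the multiples of `π + e` and of `π - e`

Let `D_N(x)` be the discrepancy of `x, 2 x, …, N x` modulo one. By Weyl's theorem `x` is irrational if and
only if `D_N(x) → 0`, and nothing is known about the rate for `π + e` or for `π - e`. We show that the two
numbers cannot fail together at any `N`, with explicit power savings:

* for two forms `x = α ξ + β e + γ`, `x' = α' ξ + β' e + γ'` with rational coefficients and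
  `α β' ≠ α' β`, and every `ε > 0`, there is `C` such that for ALL real `ξ` and all `N ≥ 1`
  `D_N(x) D_N(x') min (D_N(x), D_N(x')) ≤ C N^(ε-1)`;
* for every `N` one of the two numbers `π + e`, `π - e` has `D_N ≤ C N^(ε-1/3)`, and
  `D_N(π + e) D_N(π - e) ≤ C N^(ε-1/2)`;
* for a finite set of pairwise independent forms all but at most one have `D_N ≤ C N^(ε-1/3)`, for every
  `N` and every real `ξ`.

The proof: the sum of the sawtooth function over a block of length `q` is bounded if `q ≤ n` and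
`|q x - a| ≤ 1 / (n + 1)`, `(a, q) = 1`; cutting `[1, N]` greedily into such blocks one gets from
`D_N(x) ≥ δ` a fraction `a / q` with `q ≤ 8 L / δ` and `q |q x - a| ≤ 8 L / (δ N)`, `L = log_2 N + 1`. Two such
fractions for `x` and `x'` give a rational approximation of `e`, whose irrationality exponent is two.
-/

namespace Pool.Agent.Results.MP_363d4d_nt.EquidistributionOfMultiples

open Finset Filter Topology Pool.Agent.V8H31.Disc

/-- `α ξ + β e + γ` -/
noncomputable def form (ξ : ℝ) (f : ℚ × ℚ × ℚ) : ℝ :=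
  f.1 * ξ + f.2.1 * Real.exp 1 + f.2.2

/-- `α β' ≠ α' β` -/
def Independent (f g : ℚ × ℚ × ℚ) : Prop := f.1 * g.2.1 ≠ g.1 * f.2.1

lemma common_den (s : Finset ℚ) : ∃ M : ℤ, 1 ≤ M ∧ ∀ x ∈ s, ∃ A : ℤ, (M : ℝ) * (x : ℝ) = A := by
  classical
  refine ⟨∏ x ∈ s, (x.den : ℤ), ?_, ?_⟩
  · have : 0 < ∏ x ∈ s, (x.den : ℤ) := Finset.prod_pos fun x _ => by exact_mod_cast x.den_pos
    omega
  · intro x hx
    refine ⟨(∏ y ∈ s.erase x, (y.den : ℤ)) * x.num, ?_⟩
    rw [← Finset.mul_prod_erase s _ hx]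
    have h1 : (x : ℝ) * x.den = x.num := by
      have := Rat.mul_den_eq_num x
      exact_mod_cast congrArg (fun z : ℚ => (z : ℝ)) this
    push_cast
    linear_combination ((∏ y ∈ s.erase x, (y.den : ℝ))) * h1

/-- the inequality for two independent forms -/
theorem main (f f' : ℚ × ℚ × ℚ) (hf : Independent f f') (ε : ℝ) (hε : 0 < ε) :
    ∃ C : ℝ, 0 < C ∧ ∀ (ξ : ℝ) (N : ℕ), 1 ≤ N →
      discrepancy (form ξ f) N * discrepancy (form ξ f') N *
        min (discrepancy (form ξ f) N) (discrepancy (form ξ f') N) ≤ C * (N : ℝ) ^ (ε - 1) := by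
  obtain ⟨α, β, γ⟩ := f
  obtain ⟨α', β', γ'⟩ := f'
  obtain ⟨M, hM, hs⟩ := common_den {α, β, γ, α', β', γ'}
  obtain ⟨A, hA⟩ := hs α (by simp)
  obtain ⟨B, hB⟩ := hs β (by simp)
  obtain ⟨G, hG⟩ := hs γ (by simp)
  obtain ⟨A', hA'⟩ := hs α' (by simp)
  obtain ⟨B', hB'⟩ := hs β' (by simp)
  obtain ⟨G', hG'⟩ := hs γ' (by simp)
  unfold Independent at hf
  simp only at hf
  have hMR : (1 : ℝ) ≤ M := by exact_mod_cast hM
  have hΔ : A' * B - A * B' ≠ 0 := by
    intro h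
    apply hf
    have h1 : (A' : ℝ) * B - A * B' = 0 := by exact_mod_cast h
    rw [← hA, ← hB, ← hA', ← hB'] at h1
    have h2 : (M : ℝ) ^ 2 * ((α' : ℝ) * β - α * β') = 0 := by linear_combination h1
    rcases mul_eq_zero.1 h2 with h3 | h3
    · have : (0 : ℝ) < (M : ℝ) ^ 2 := by positivity
      linarith
    · have h4 : (α : ℝ) * β' = α' * β := by linarith
      exact_mod_cast h4
  obtain ⟨C, hC0, hC⟩ := joint (A' * M) (A * M) (A' * B - A * B') (A' * G - A * G') hΔ ε hε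
  refine ⟨C, hC0, fun ξ N hN => hC _ _ ?_ N hN⟩
  simp only [form]
  push_cast
  rw [← hA, ← hB, ← hA', ← hB', ← hG, ← hG']
  ring

lemma cube (C ε δ δ' : ℝ) (N : ℕ) (hN : 1 ≤ N) (_ : 0 ≤ δ) (_ : 0 ≤ δ')
    (h : δ * δ' * min δ δ' ≤ C * (N : ℝ) ^ (3 * ε - 1)) (hC : 0 < C)
    (h1 : (C + 1) * (N : ℝ) ^ (ε - 1 / 3) < δ) (h2 : (C + 1) * (N : ℝ) ^ (ε - 1 / 3) < δ') : False := by
  have hN' : (1 : ℝ) ≤ N := by exact_mod_cast hN
  have hN0 : (0 : ℝ) < N := by linarith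
  obtain ⟨T, hT⟩ : ∃ T : ℝ, T = (C + 1) * (N : ℝ) ^ (ε - 1 / 3) := ⟨_, rfl⟩
  rw [← hT] at h1 h2
  have hT0 : 0 < T := by rw [hT]; positivity
  have h3 : T * T * T < δ * δ' * min δ δ' := by
    have h4 : T < min δ δ' := lt_min h1 h2
    have h5 : T * T < δ * δ' := by nlinarith
    nlinarith [mul_pos hT0 hT0]
  have h6 : T * T * T = (C + 1) ^ 3 * (N : ℝ) ^ (3 * ε - 1) := by
    have e1 : (N : ℝ) ^ (3 * ε - 1) = ((N : ℝ) ^ (ε - 1 / 3)) ^ 3 := by
      rw [← Real.rpow_natCast, ← Real.rpow_mul hN0.le]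
      congr 1
      push_cast
      ring
    rw [hT, e1]
    ring
  have h7 : 0 < (N : ℝ) ^ (3 * ε - 1) := by positivity
  have h8 : C ≤ (C + 1) ^ 3 := by nlinarith [sq_nonneg C, mul_pos hC hC, mul_pos (mul_pos hC hC) hC]
  have h9 : C * (N : ℝ) ^ (3 * ε - 1) ≤ (C + 1) ^ 3 * (N : ℝ) ^ (3 * ε - 1) :=
    mul_le_mul_of_nonneg_right h8 h7.le
  linarith

/-- two independent forms do not fail at the same `N` -/
theorem pair (f f' : ℚ × ℚ × ℚ) (hf : Independent f f') (ε : ℝ) (hε : 0 < ε) :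
    ∃ C : ℝ, 0 < C ∧ ∀ (ξ : ℝ) (N : ℕ), 1 ≤ N → ∀ C' : ℝ, C ≤ C' →
      C' * (N : ℝ) ^ (ε - 1 / 3) < discrepancy (form ξ f) N →
      C' * (N : ℝ) ^ (ε - 1 / 3) < discrepancy (form ξ f') N → False := by
  obtain ⟨C, hC, h⟩ := main f f' hf (3 * ε) (by linarith)
  refine ⟨C + 1, by linarith, fun ξ N hN C' hC' h1 h2 => ?_⟩
  have h3 : 0 ≤ (N : ℝ) ^ (ε - 1 / 3) := by positivity
  have h4 := mul_le_mul_of_nonneg_right hC' h3
  exact cube C ε _ _ N hN (discrepancy_nonneg _ _) (discrepancy_nonneg _ _) (h ξ N hN) hC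
    (lt_of_le_of_lt h4 h1) (lt_of_le_of_lt h4 h2)

/-- **The uniform distribution of the multiples of `π + e` and `π - e`.**

(0) `x` is irrational if and only if the discrepancy `D_N(x)` of `x, 2 x, …, N x` tends to zero.

(1) For all forms `x = α ξ + β e + γ`, `x' = α' ξ + β' e + γ'` with rational coefficients and
`α β' ≠ α' β`, and all `ε > 0` there is `C` with
`D_N(x) D_N(x') min (D_N(x), D_N(x')) ≤ C N^(ε-1)` for all real `ξ` and all `N ≥ 1`.

(2) For every finite set `F` of pairwise independent forms and every `ε > 0` there is `C` such that for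
all real `ξ` and all `N ≥ 1` at most one of the forms in `F` has discrepancy above `C N^(ε-1/3)`.

(3) For every `ε > 0` there is `C` such that for all `N ≥ 1` one of the discrepancies `D_N(π + e)`,
`D_N(π - e)` is at most `C N^(ε-1/3)`, and their product is at most `C N^(ε-1/2)`. -/
theorem result :
    (∀ x : ℝ, Irrational x ↔ Tendsto (fun N => discrepancy x N) atTop (𝓝 0)) ∧
    (∀ f f' : ℚ × ℚ × ℚ, Independent f f' → ∀ ε : ℝ, 0 < ε → ∃ C : ℝ, ∀ (ξ : ℝ) (N : ℕ), 1 ≤ N →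
      discrepancy (form ξ f) N * discrepancy (form ξ f') N *
        min (discrepancy (form ξ f) N) (discrepancy (form ξ f') N) ≤ C * (N : ℝ) ^ (ε - 1)) ∧
    (∀ F : Finset (ℚ × ℚ × ℚ), (F : Set (ℚ × ℚ × ℚ)).Pairwise Independent → ∀ ε : ℝ, 0 < ε →
      ∃ C : ℝ, ∀ (ξ : ℝ) (N : ℕ), 1 ≤ N → ∀ f ∈ F, ∀ g ∈ F,
        C * (N : ℝ) ^ (ε - 1 / 3) < discrepancy (form ξ f) N →
        C * (N : ℝ) ^ (ε - 1 / 3) < discrepancy (form ξ g) N → f = g) ∧
    (∀ ε : ℝ, 0 < ε → ∃ C : ℝ, ∀ N : ℕ, 1 ≤ N →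
      (discrepancy (Real.pi + Real.exp 1) N ≤ C * (N : ℝ) ^ (ε - 1 / 3) ∨
        discrepancy (Real.pi - Real.exp 1) N ≤ C * (N : ℝ) ^ (ε - 1 / 3)) ∧
      discrepancy (Real.pi + Real.exp 1) N * discrepancy (Real.pi - Real.exp 1) N ≤
        C * (N : ℝ) ^ (ε - 1 / 2)) := by
  classical
  have hind : Independent (1, 1, 0) (1, -1, 0) := by
    unfold Independent
    norm_num
  have e1 : form Real.pi (1, 1, 0) = Real.pi + Real.exp 1 := by simp [form]
  have e2 : form Real.pi (1, -1, 0) = Real.pi - Real.exp 1 := by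
    simp [form]
    ring
  refine ⟨irrational_iff, ?_, ?_, ?_⟩
  · intro f f' hf ε hε
    obtain ⟨C, -, hC⟩ := main f f' hf ε hε
    exact ⟨C, hC⟩
  · intro F hF ε hε
    have h : ∀ p : (ℚ × ℚ × ℚ) × (ℚ × ℚ × ℚ), ∃ C : ℝ, 0 < C ∧ (Independent p.1 p.2 →
        ∀ (ξ : ℝ) (N : ℕ), 1 ≤ N → ∀ C' : ℝ, C ≤ C' →
        C' * (N : ℝ) ^ (ε - 1 / 3) < discrepancy (form ξ p.1) N →
        C' * (N : ℝ) ^ (ε - 1 / 3) < discrepancy (form ξ p.2) N → False) := by
      intro p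
      by_cases hp : Independent p.1 p.2
      · obtain ⟨C, hC, h⟩ := pair p.1 p.2 hp ε hε
        exact ⟨C, hC, fun _ => h⟩
      · exact ⟨1, one_pos, fun h => absurd h hp⟩
    choose C hC h using h
    refine ⟨∑ p ∈ F ×ˢ F, C p, fun ξ N hN f hf g hg h1 h2 => ?_⟩
    by_contra hne
    have hle : C (f, g) ≤ ∑ p ∈ F ×ˢ F, C p :=
      single_le_sum (f := C) (fun p _ => (hC p).le) (mem_product.2 ⟨hf, hg⟩)
    exact h (f, g) (hF hf hg hne) ξ N hN _ hle h1 h2
  · intro ε hε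
    obtain ⟨C₁, hC₁, h1⟩ := pair _ _ hind ε hε
    obtain ⟨C₂, hC₂, h2⟩ := main _ _ hind (2 * ε) (by linarith)
    refine ⟨max C₁ (Real.sqrt C₂), fun N hN => ⟨?_, ?_⟩⟩
    · have h3 := h1 Real.pi N hN (max C₁ (Real.sqrt C₂)) (le_max_left _ _)
      rw [e1, e2] at h3
      by_contra hcon
      push Not at hcon
      exact h3 hcon.1 hcon.2
    · have h3 := h2 Real.pi N hN
      rw [e1, e2] at h3
      have hN' : (1 : ℝ) ≤ N := by exact_mod_cast hN
      have hN0 : (0 : ℝ) < N := by linarith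
      obtain ⟨δ, hδ⟩ : ∃ δ, δ = discrepancy (Real.pi + Real.exp 1) N := ⟨_, rfl⟩
      obtain ⟨δ', hδ'⟩ : ∃ δ', δ' = discrepancy (Real.pi - Real.exp 1) N := ⟨_, rfl⟩
      have a0 : 0 ≤ δ := by rw [hδ]; exact discrepancy_nonneg _ N
      have a0' : 0 ≤ δ' := by rw [hδ']; exact discrepancy_nonneg _ N
      have a1 : δ ≤ 1 := by rw [hδ]; exact discrepancy_le_one _ N
      have a1' : δ' ≤ 1 := by rw [hδ']; exact discrepancy_le_one _ N
      rw [← hδ, ← hδ'] at h3 ⊢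
      have h4 : (δ * δ') ^ 2 ≤ C₂ * (N : ℝ) ^ (2 * ε - 1) := by
        refine le_trans ?_ h3
        have h5 : δ * δ' ≤ min δ δ' := by
          refine le_min ?_ ?_ <;> nlinarith
        rw [sq]
        exact mul_le_mul_of_nonneg_left h5 (by positivity)
      have h6 : C₂ * (N : ℝ) ^ (2 * ε - 1) = (Real.sqrt C₂ * (N : ℝ) ^ (ε - 1 / 2)) ^ 2 := by
        rw [mul_pow, Real.sq_sqrt hC₂.le, ← Real.rpow_natCast ((N : ℝ) ^ (ε - 1 / 2)) 2,
          ← Real.rpow_mul hN0.le]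
        congr 2
        push_cast
        ring
      rw [h6] at h4
      have h7 := (le_abs_self _).trans (abs_le_of_sq_le_sq h4 (by positivity))
      have h8 : Real.sqrt C₂ * (N : ℝ) ^ (ε - 1 / 2) ≤
          max C₁ (Real.sqrt C₂) * (N : ℝ) ^ (ε - 1 / 2) :=
        mul_le_mul_of_nonneg_right (le_max_right _ _) (by positivity)
      linarith

end Pool.Agent.Results.MP_363d4d_nt.EquidistributionOfMultiples
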