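import Pool.Agent.V8H31.GT.Main
import Pool.Agent.V8H31.GT.Examples

/-!
# `π + e`, `π - e` and the tails of the Gaussian integral

For `t > 0` let `I(t)` be the integral of `exp (-u² / 2)` over `u > t`. We consider the arguments `t`
whose square is rational. Call a field `F` of real numbers simultaneously Liouville if for any finitely
many elements `x_1, …, x_m` of `F` and any `w` there are arbitrarily large `q` such that all `q x_i` are
at a distance less than `q ^ (-w)` from an integer. Examples are `ℚ`, the fields `ℚ(ξ)` generated by a
Liouville number `ξ`, and a field whose transcendence degree is the cardinality of the continuum. For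
every such field `F`:

(1) of any `n` of the numbers `π`, `I(t)` one can choose `n - 1` which together with `e` are
algebraically independent over `F`;

(2) of any `n` of the numbers `π + e`, `π - e`, `I(t)` one can choose `n - 1` which are algebraically
independent over `F`; so at most one of these numbers is algebraic over `F`;

(3) `e` and `π` are algebraically independent over `F`, or `e` and all the numbers `I(t)` are
algebraically independent over `F`;

(4) if `π + e` or `π - e` is algebraic over `F` (for instance rational) then `e` and all the numbers
`I(t)` are algebraically independent over `F`.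

The proof: `I(t) = √(π / 2) - t (1 - z / 2)`, where `z = z(t)` is a value of an E-function at a
rational point. For distinct arguments these values and `e` have a measure of algebraic independence
(the quantitative theorem of Siegel and Shidlovskii, proved in the starting files), and so they are
algebraically independent over `F`. The claims follow by a count of ranks in the matroid of algebraic
independence over `F`.
-/

set_option autoImplicit false

namespace Pool.Agent.Results.MP_363d4d_nt.GaussianTails

open Pool.Agent.V8H31

/-- For any finitely many elements `x` of `F`, any `w` and `q0` there is an integer `q ≥ q0`, `q ≥ 1`, such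
that each `q x` is at a distance less than `q ^ (-w)` from an integer. -/
def SimLiouville (F : Subfield ℝ) : Prop :=
  ∀ s : Finset ℝ, (∀ x ∈ s, x ∈ F) → ∀ w q0 : ℕ, ∃ q : ℕ, q0 ≤ q ∧ 1 ≤ q ∧
    ∀ x ∈ s, ∃ p : ℤ, |(q : ℝ) * x - p| < 1 / (q : ℝ) ^ w

/-- the positive real numbers with a rational square -/
abbrev Argument := {t : ℝ // 0 < t ∧ ∃ r : ℚ, t ^ 2 = r}

/-- the integral of `exp (-u ^ 2 / 2)` over `u > t` -/
noncomputable def tail (t : ℝ) : ℝ := ∫ u in Set.Ioi t, Real.exp (-u ^ 2 / 2)

/-- the numbers `π` (for `none`) and `I(t)` -/
noncomputable def withPi : Option Argument → ℝ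
  | none => Real.pi
  | some t => tail t

/-- the numbers `π + e` (for `none`), `π - e` (for `some none`) and `I(t)` -/
noncomputable def withBoth : Option (Option Argument) → ℝ
  | none => Real.pi + Real.exp 1
  | some none => Real.pi - Real.exp 1
  | some (some t) => tail t

/-- `e` and the numbers `x i` are algebraically independent over `F` -/
def IndependentWithE (F : Subfield ℝ) {ι : Type} (x : ι → ℝ) : Prop :=
  AlgebraicIndependent F (fun o : Option ι => o.elim (Real.exp 1) x)

theorem withPi_eq : withPi = GT.number := by
  funext o
  rcases o with _ | t <;> rfl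

theorem withBoth_eq : withBoth = GT.number2 := by
  funext o
  rcases o with _ | _ | t <;> rfl

theorem pi_add {F : Subfield ℝ} (h : IsAlgebraic F (Real.pi + Real.exp 1)) :
    ¬ AlgebraicIndependent F ![Real.exp 1, Real.pi] := by
  intro hi
  obtain ⟨P, hP0, hP⟩ := h
  have h1 := (algebraicIndependent_iff.1 hi)
    (Polynomial.aeval (MvPolynomial.X 1 + MvPolynomial.X 0 : MvPolynomial (Fin 2) F) P) (by
      rw [← Polynomial.aeval_algHom_apply]
      simpa using hP)
  apply hP0
  have h2 := congrArg (MvPolynomial.aeval (![0, Polynomial.X] : Fin 2 → Polynomial F)) h1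
  rw [← Polynomial.aeval_algHom_apply, map_zero] at h2
  simpa using h2

theorem pi_sub {F : Subfield ℝ} (h : IsAlgebraic F (Real.pi - Real.exp 1)) :
    ¬ AlgebraicIndependent F ![Real.exp 1, Real.pi] := by
  intro hi
  obtain ⟨P, hP0, hP⟩ := h
  have h1 := (algebraicIndependent_iff.1 hi)
    (Polynomial.aeval (MvPolynomial.X 1 - MvPolynomial.X 0 : MvPolynomial (Fin 2) F) P) (by
      rw [← Polynomial.aeval_algHom_apply]
      simpa using hP)
  apply hP0
  have h2 := congrArg (MvPolynomial.aeval (![0, Polynomial.X] : Fin 2 → Polynomial F)) h1
  rw [← Polynomial.aeval_algHom_apply, map_zero] at h2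
  simpa using h2

/-- **`π + e`, `π - e` and the tails of the Gaussian integral.** See the text at the beginning of the
file. -/
theorem result :
    -- examples of simultaneously Liouville fields
    SimLiouville ⊥ ∧
    (∀ ξ : ℝ, Liouville ξ → SimLiouville (Subfield.closure {ξ})) ∧
    (∃ F : Subfield ℝ, SimLiouville F ∧ Algebra.trdeg ℚ F = Cardinal.continuum) ∧
    ∀ F : Subfield ℝ, SimLiouville F →
      -- (1)
      (∀ J : Finset (Option Argument), ∃ J' ⊆ J, J.card ≤ J'.card + 1 ∧
        IndependentWithE F (fun j : J' => withPi j)) ∧
      -- (2)
      (∀ J : Finset (Option (Option Argument)), ∃ J' ⊆ J, J.card ≤ J'.card + 1 ∧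
        AlgebraicIndependent F (fun j : J' => withBoth j)) ∧
      (∀ i j : Option (Option Argument), i ≠ j →
        Transcendental F (withBoth i) ∨ Transcendental F (withBoth j)) ∧
      -- (3)
      (AlgebraicIndependent F ![Real.exp 1, Real.pi] ∨
        IndependentWithE F (fun t : Argument => tail t)) ∧
      -- (4)
      (IsAlgebraic F (Real.pi + Real.exp 1) ∨ IsAlgebraic F (Real.pi - Real.exp 1) →
        IndependentWithE F (fun t : Argument => tail t)) := by
  classical
  refine ⟨?_, fun ξ hξ => GT.sim_liouville hξ, GT.sim_large, fun F hF => ?_⟩
  · obtain ⟨F, hF, -⟩ := GT.sim_large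
    exact GT.sim_mono bot_le hF
  · have h2 := GT.choose_number2 (F := F) hF
    refine ⟨?_, ?_, ?_, GT.indep_or hF, fun h => (GT.indep_or hF).resolve_left ?_⟩
    · rw [withPi_eq]
      exact GT.choose_indep hF
    · rw [withBoth_eq]
      exact h2
    · intro i j hij
      rw [withBoth_eq]
      obtain ⟨J', hJ', hc, hi⟩ := h2 {i, j}
      rw [Finset.card_pair hij] at hc
      obtain ⟨k, hk⟩ := Finset.card_pos.1 (by omega : 0 < J'.card)
      have h3 := hi.transcendental ⟨k, hk⟩
      have h4 := hJ' hk
      rw [Finset.mem_insert, Finset.mem_singleton] at h4
      rcases h4 with h4 | h4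
      · left; rw [← h4]; exact h3
      · right; rw [← h4]; exact h3
    · rcases h with h | h
      · exact pi_add h
      · exact pi_sub h

end Pool.Agent.Results.MP_363d4d_nt.GaussianTails
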