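import Pool.Agent.N743.Dg.Asym
import Pool.Agent.V8H31.GT.Pair5

/-!
# `π + e`, `π - e` and the Mills ratio: an explicit joint measure

Let `R(x) = 2 x ∫_0^∞ exp (-x (2 v + v ^ 2)) dv`, a Mills ratio of the Gaussian distribution, for rational
`x > 0`; for `x = 1 / 2` it is `κ = ∫_0^∞ exp (-v - v ^ 2 / 2) dv`. We show that the numbers `π + e` and
`π - e`, and more generally `a π + b e + c` with integers `a ≠ 0`, `b`, `c`, have no rational
approximations as good as those of `R(x)` at the same time, with an explicit exponent: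

(1) `max (|a π + b e + c - p / q|, |R(x) - r / s|) ≥ C (q s ^ 2) ^ (-(5 + ε))`;

(2) if `R(x)` is rational then all the numbers `a π + b e + c`, `a ≠ 0`, have irrationality exponent at
most `5`, and if one of the numbers `a π + b e + c` is rational (for instance `π + e` or `π - e`) then
all the numbers `R(x)` have irrationality exponent at most `10`;

(3) if `5 θ (M + 1) < 1` then the approximations of `a π + b e + c` with denominators at most `X ^ θ` and
those of `R(x)` with denominators at most `X ^ (θ / 2)` satisfy the scale dichotomy;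

(4) the linear complexities of the digits of the two numbers, in two arbitrary bases, satisfy an
explicit joint lower bound; for `κ` and `π + e` or `π - e` in the same base
`N(π ± e) + 2 N(κ) ≥ (1/5 - ε) L`.

The proof: `(x G + R(x)) ^ 2 = π x e ^ (2 x)`, where `G` is the value of an `E`-function at a rational
point. So two simultaneous approximations give a small linear form in the five numbers `1`, `G`, `G ^ 2`,
`e ^ (2 x)`, `e ^ (2 x + 1)`, which are the values of `E`-functions, linearly independent over the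
polynomials, that form a solution of a system of linear differential equations. The quantitative theorem
of Siegel and Shidlovskii (starting files) gives the exponent `4 + ε` for linear forms in these numbers.
-/

set_option autoImplicit false

open MeasureTheory Set

namespace Pool.Agent.Results.MP_363d4d_nt.MillsRatioMeasure

open Pool.Agent.N743 Pool.Agent.N743.Dg Pool.Agent.N743.SS Pool.Agent.V8H31

/-- `s 1, …, s L` satisfy the linear recurrence `s (i + m) = c 0 * s i + … + c (m - 1) * s (i + m - 1)`,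
`1 ≤ i ≤ L - m`. -/
def Recurrence (s : ℕ → ℤ) (c : ℕ → ℚ) (L m : ℕ) : Prop :=
  ∀ i : ℕ, 1 ≤ i → i + m ≤ L → (s (i + m) : ℚ) = ∑ j ∈ Finset.range m, c j * (s (i + j) : ℚ)

/-- the linear complexity `N(x; b, L)` of the first `L` digits `⌊x b ^ i⌋ mod b`, `1 ≤ i ≤ L`, of `x` in base `b`:
the least order `m` of a linear recurrence over `ℚ` satisfied by them -/
noncomputable def N (x : ℝ) (b L : ℕ) : ℕ :=
  sInf {m | ∃ c : ℕ → ℚ, Recurrence (fun i => ⌊x * (b : ℝ) ^ i⌋ % (b : ℤ)) c L m}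

/-- `m + C √((m + 1) log (m + 2))` -/
noncomputable def F (C : ℝ) (m : ℕ) : ℝ :=
  m + C * Real.sqrt (((m : ℝ) + 1) * Real.log ((m : ℝ) + 2))

/-- `R(x) = 2 x ∫_0^∞ exp (-x (2 v + v ^ 2)) dv`, a Mills ratio -/
noncomputable def R (x : ℝ) : ℝ := 2 * x * ∫ v in Ioi (0 : ℝ), Real.exp (-(x * (2 * v + v ^ 2)))

/-- `a π + b e + c` -/
noncomputable def form (a b c : ℤ) : ℝ := a * Real.pi + b * Real.exp 1 + c

/-- For all digit lengths in all pairs of bases:
`min(L log b, L' log b') ≤ μ (F(N(u; b, L)) log b + 2 F(N(v; b', L')) log b')` -/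
def Bound (μ C : ℝ) (u v : ℝ) : Prop :=
  ∀ b b' : ℕ, 2 ≤ b → 2 ≤ b' → ∀ L L' : ℕ,
    min (L * Real.log b) (L' * Real.log b') ≤
      μ * (F C (N u b L) * Real.log b + 2 * F C (N v b' L') * Real.log b')

/-- `(κ - ε) L ≤ N(u; b, L) + 2 N(v; b, L)` for all large `L`, uniformly in the base -/
def Density (κ : ℝ) (u v : ℝ) : Prop :=
  ∀ ε : ℝ, 0 < ε → ∃ L₀ : ℕ, ∀ b : ℕ, 2 ≤ b → ∀ L : ℕ, L₀ ≤ L →
    (κ - ε) * L ≤ N u b L + 2 * N v b L

/-- the irrationality exponent of `u` is at most `μ` (in particular `u` is irrational) -/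
def ExponentAtMost (μ : ℝ) (u : ℝ) : Prop :=
  ∀ ε : ℝ, 0 < ε → ∃ C : ℝ, 0 < C ∧ ∀ (p : ℤ) (q : ℕ), 0 < q → C * (q : ℝ) ^ (-(μ + ε)) ≤ |u - p / q|

theorem R_half : R (1 / 2) = ∫ v in Ioi (0 : ℝ), Real.exp (-v - v ^ 2 / 2) := by
  rw [R, ← mil_mills (by norm_num), mil_half]

/-- **The joint measure** -/
theorem measure (a b c : ℤ) (ha : a ≠ 0) (x : ℚ) (hx : 0 < x) (ε : ℝ) (hε : 0 < ε) :
    ∃ C : ℝ, 0 < C ∧ ∀ (p r : ℤ) (q s : ℕ), 0 < q → 0 < s →
      C * ((q : ℝ) * (s : ℝ) ^ 2) ^ (-(5 + ε)) ≤ max |form a b c - p / q| |R x - r / s| := by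
  obtain ⟨C, hC, h⟩ := GT.pair_form a b c ha x hx ε hε
  refine ⟨C, hC, fun p r q s hq hs => ?_⟩
  rw [R, ← mil_mills (by exact_mod_cast hx)]
  exact h p r q s hq hs

theorem sim (a b c : ℤ) (ha : a ≠ 0) (x : ℚ) (hx : 0 < x) (ε : ℝ) (hε : 0 < ε) :
    ∃ c₀ : ℝ, 0 < c₀ ∧ Sim 1 2 (5 + ε) c₀ (form a b c) (R x) := by
  obtain ⟨C, hC, h⟩ := measure a b c ha x hx ε hε
  refine ⟨C, hC, fun p r q s hq hs => ?_⟩
  rw [pow_one]
  exact h p r q s hq hs

theorem density (a b c : ℤ) (ha : a ≠ 0) (x : ℚ) (hx : 0 < x) : Density (1 / 5) (form a b c) (R x) := by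
  intro ε hε
  obtain ⟨L₀, h⟩ := asym 1 2 le_rfl (by norm_num) 5 (by norm_num) (form a b c) (R x) (sim a b c ha x hx) ε hε
  refine ⟨L₀, fun β hβ L hL => ?_⟩
  have h1 := h β hβ L hL
  rw [Nat.cast_one, one_mul, Nat.cast_ofNat] at h1
  exact h1

/-- **`π + e`, `π - e` and the Mills ratio: an explicit joint measure.** See the text at the beginning
of the file. -/
theorem result :
    -- (1) the measure
    (∀ a b c : ℤ, a ≠ 0 → ∀ x : ℚ, 0 < x → ∀ ε : ℝ, 0 < ε → ∃ C : ℝ, 0 < C ∧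
      ∀ (p r : ℤ) (q s : ℕ), 0 < q → 0 < s →
        C * ((q : ℝ) * (s : ℝ) ^ 2) ^ (-(5 + ε)) ≤ max |form a b c - p / q| |R x - r / s|) ∧
    -- (2) irrationality exponents
    ((∃ x : ℚ, 0 < x ∧ IsRat (R x)) → ∀ a b c : ℤ, a ≠ 0 → ExponentAtMost 5 (form a b c)) ∧
    ((∃ a b c : ℤ, a ≠ 0 ∧ IsRat (form a b c)) → ∀ x : ℚ, 0 < x → ExponentAtMost 10 (R x)) ∧
    -- (3) the scale dichotomy
    (∀ a b c : ℤ, a ≠ 0 → ∀ x : ℚ, 0 < x → ∀ θ M : ℝ, 0 < θ → 1 < M → 5 * θ * (M + 1) < 1 →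
      Dichotomy (fun i : Fin 2 => IsRat (![form a b c, R x] i))
        (fun X i => RatNear (![θ, θ / 2] i) X (![form a b c, R x] i)) M) ∧
    -- (4) the digits
    (∀ a b c : ℤ, a ≠ 0 → ∀ x : ℚ, 0 < x → (∀ η : ℝ, 0 < η → ∃ C : ℝ, 0 < C ∧
      Bound (5 + η) C (form a b c) (R x)) ∧ Density (1 / 5) (form a b c) (R x)) ∧
    -- (5) the case of `π + e` and `π - e`
    (∀ u : ℝ, u = Real.pi + Real.exp 1 ∨ u = Real.pi - Real.exp 1 →
      ∀ κ : ℝ, κ = ∫ v in Ioi (0 : ℝ), Real.exp (-v - v ^ 2 / 2) →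
        (∀ ε : ℝ, 0 < ε → ∃ C : ℝ, 0 < C ∧ ∀ (p r : ℤ) (q s : ℕ), 0 < q → 0 < s →
          C * ((q : ℝ) * (s : ℝ) ^ 2) ^ (-(5 + ε)) ≤ max |u - p / q| |κ - r / s|) ∧
        (IsRat κ → ExponentAtMost 5 u) ∧ (IsRat u → ExponentAtMost 10 κ) ∧ Density (1 / 5) u κ) := by
  have key1 : ∀ x : ℚ, 0 < x → IsRat (R x) → ∀ a b c : ℤ, a ≠ 0 → ExponentAtMost 5 (form a b c) := by
    intro x hx ⟨y, hy⟩ a b c ha ε hε
    obtain ⟨C, hC, h⟩ := measure a b c ha x hx ε hε
    refine ⟨C * ((y.den : ℝ) ^ 2) ^ (-(5 + ε)), by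
      have : (0 : ℝ) < y.den := by exact_mod_cast y.den_pos
      positivity, fun p q hq => ?_⟩
    have h1 := h p y.num q y.den hq y.den_pos
    have h2 : R x - (y.num : ℝ) / (y.den : ℝ) = 0 := by
      rw [hy, sub_eq_zero]
      exact (Rat.cast_def y)
    rw [h2, abs_zero, max_eq_left (abs_nonneg _)] at h1
    have hq0 : (0 : ℝ) ≤ q := by positivity
    rw [mul_comm (q : ℝ), Real.mul_rpow (by positivity) hq0] at h1
    calc C * ((y.den : ℝ) ^ 2) ^ (-(5 + ε)) * (q : ℝ) ^ (-(5 + ε))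
        = C * (((y.den : ℝ) ^ 2) ^ (-(5 + ε)) * (q : ℝ) ^ (-(5 + ε))) := by ring
      _ ≤ _ := h1
  have key2 : ∀ a b c : ℤ, a ≠ 0 → IsRat (form a b c) → ∀ x : ℚ, 0 < x → ExponentAtMost 10 (R x) := by
    intro a b c ha ⟨y, hy⟩ x hx ε hε
    obtain ⟨C, hC, h⟩ := measure a b c ha x hx (ε / 2) (by positivity)
    refine ⟨C * (y.den : ℝ) ^ (-(5 + ε / 2)), by
      have : (0 : ℝ) < y.den := by exact_mod_cast y.den_pos
      positivity, fun p q hq => ?_⟩
    have h1 := h y.num p y.den q y.den_pos hq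
    have h2 : form a b c - (y.num : ℝ) / (y.den : ℝ) = 0 := by
      rw [hy, sub_eq_zero]
      exact (Rat.cast_def y)
    rw [h2, abs_zero, max_eq_right (abs_nonneg _)] at h1
    have hq0 : (0 : ℝ) ≤ q := by positivity
    rw [Real.mul_rpow (by positivity) (by positivity)] at h1
    have h3 : ((q : ℝ) ^ 2) ^ (-(5 + ε / 2)) = (q : ℝ) ^ (-(10 + ε)) := by
      rw [← Real.rpow_natCast (q : ℝ) 2, ← Real.rpow_mul hq0]
      congr 1
      push_cast
      ring
    rw [h3] at h1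
    calc C * (y.den : ℝ) ^ (-(5 + ε / 2)) * (q : ℝ) ^ (-(10 + ε))
        = C * ((y.den : ℝ) ^ (-(5 + ε / 2)) * (q : ℝ) ^ (-(10 + ε))) := by ring
      _ ≤ _ := h1
  refine ⟨measure, fun ⟨x, hx, h⟩ => key1 x hx h, fun ⟨a, b, c, ha, h⟩ => key2 a b c ha h, ?_, ?_, ?_⟩
  · intro a b c ha x hx θ M hθ hM1 hM
    have h := dichotomy_pair (form a b c) (R x) 1 2 le_rfl (by norm_num) 5 (by norm_num) (fun ε hε => by
      obtain ⟨C, hC, h⟩ := measure a b c ha x hx ε hε
      refine ⟨C, hC, fun p r q s hq hs => ?_⟩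
      rw [pow_one]
      exact h p r q s hq hs) θ M hθ hM1 hM
    have e1 : (fun (X : ℝ) (i : Fin 2) => RatNear (θ / ((![1, 2] : Fin 2 → ℕ) i : ℕ)) X
        ((![form a b c, R x] : Fin 2 → ℝ) i)) =
        fun X i => RatNear (![θ, θ / 2] i) X (![form a b c, R x] i) := by
      funext X i
      fin_cases i <;> simp
    rw [e1] at h
    exact h
  · intro a b c ha x hx
    refine ⟨fun η hη => ?_, density a b c ha x hx⟩
    obtain ⟨c₀, hc₀, h⟩ := sim a b c ha x hx η hη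
    obtain ⟨C, hC, hmain⟩ := two 1 2 le_rfl (by norm_num) (5 + η) c₀ (by linarith) hc₀
    refine ⟨C, hC, fun β β' hβ hβ' L L' => ?_⟩
    have h1 := hmain (form a b c) (R x) h β β' hβ hβ' L L'
    rw [Nat.cast_one, one_mul, Nat.cast_ofNat] at h1
    exact h1
  · intro u hu κ hκ
    obtain ⟨b, hb⟩ : ∃ b : ℤ, u = form 1 b 0 := by
      rcases hu with hu | hu
      · exact ⟨1, by rw [hu, form]; push_cast; ring⟩
      · exact ⟨-1, by rw [hu, form]; push_cast; ring⟩
    have hκ' : κ = R ((1 / 2 : ℚ) : ℝ) := by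
      rw [hκ, ← R_half]
      norm_num
    rw [hb, hκ']
    refine ⟨measure 1 b 0 one_ne_zero (1 / 2) (by norm_num), fun h => key1 _ (by norm_num) h 1 b 0 one_ne_zero,
      fun h => key2 1 b 0 one_ne_zero h _ (by norm_num), density 1 b 0 one_ne_zero _ (by norm_num)⟩

end Pool.Agent.Results.MP_363d4d_nt.MillsRatioMeasure
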