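import Pool.Agent.V8H31.GT.Dich

/-!
# The rational and algebraic approximations of `π + e`, `π - e` at all scales

`π + e` or `π - e` is irrational; how do the rational approximations of the two numbers interact? A
number `u` is near at the scale `X` (with parameter `θ`) if some fraction `p / q` with `q ≤ X ^ θ` lies
within `1 / X` of `u`. We show, for `M > 1` and `2 θ (M + 1) < 1`, for `π + e` and `π - e`, and more
generally for any finite set of forms `a ξ + b e + c`, `ξ` real, `a`, `b`, `c` integers, with pairwise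
non-proportional `(a, b)`:

* at every large scale at most one of the numbers is near;
* if one of the numbers is rational then it is near at all large scales and the others are near at no
  large scale;
* otherwise every large scale `X` at which one of the numbers is near is followed by a scale `Z ≥ X`
  such that between `X` and `Z` no other of the numbers is near, and between `Z` and `Z ^ M` none of the
  numbers is near; and there are arbitrarily large such `Z`.

So one of the two numbers `π + e`, `π - e` is rational if and only if at every large scale one of them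
is near. The constant `2` comes from the irrationality exponent `2` of `e`.

The same is true for approximations by algebraic numbers of degree at most `d`, if `θ` is small enough,
and for `ξ = π` also the tails `I(t)` of the Gaussian integral (the integral of `exp (-u² / 2)` over
`u > t`), `t > 0`, `t²` rational, can be added to the set. This follows from the joint measure (4) for
these numbers, which rests on the quantitative theorem of Siegel and Shidlovskii, and from the
combinatorial engine `Pool.Agent.N743.engine` of the starting files.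
-/

set_option autoImplicit false

namespace Pool.Agent.Results.MP_363d4d_nt.ScaleDichotomy

open Pool.Agent.N743 Pool.Agent.V8H31
open Polynomial

/-- the form `f₁ ξ + f₂ e + f₃` with integer coefficients -/
noncomputable def form (ξ : ℝ) (f : ℤ × ℤ × ℤ) : ℝ := f.1 * ξ + f.2.1 * Real.exp 1 + f.2.2

/-- the coefficients of `ξ` and `e` in the two forms are not proportional -/
def Independent (f g : ℤ × ℤ × ℤ) : Prop := f.1 * g.2.1 ≠ g.1 * f.2.1

/-- the positive real numbers with a rational square -/
abbrev Argument := {t : ℝ // 0 < t ∧ ∃ r : ℚ, t ^ 2 = r}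

/-- the integral of `exp (-u ^ 2 / 2)` over `u > t` -/
noncomputable def tail (t : ℝ) : ℝ := ∫ u in Set.Ioi t, Real.exp (-u ^ 2 / 2)

/-- the forms `f₁ π + f₂ e + f₃` and the tails `I(t)` -/
noncomputable def number : (ℤ × ℤ × ℤ) ⊕ Argument → ℝ
  | Sum.inl f => form Real.pi f
  | Sum.inr t => tail t

/-- two independent forms, a form with `f₁ ≠ 0` or `f₂ ≠ 0` and a tail, or two tails with different
arguments -/
def Different : (ℤ × ℤ × ℤ) ⊕ Argument → (ℤ × ℤ × ℤ) ⊕ Argument → Prop
  | Sum.inl f, Sum.inl g => Independent f g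
  | Sum.inl f, Sum.inr _ => f.1 ≠ 0 ∨ f.2.1 ≠ 0
  | Sum.inr _, Sum.inl f => f.1 ≠ 0 ∨ f.2.1 ≠ 0
  | Sum.inr t, Sum.inr t' => t ≠ t'

/-- for every degree `D` a lower bound `C H ^ (-κ)` for the larger one of `|P(u)|`, `|Q(v)|`, for all
nonzero integer polynomials `P`, `Q` of degree at most `D` and with coefficients of absolute value at
most `H` -/
def JointMeasure (u v : ℝ) : Prop :=
  ∀ D : ℕ, ∃ κ C : ℝ, 0 < κ ∧ 0 < C ∧ ∀ P Q : ℤ[X], P ≠ 0 → Q ≠ 0 → P.natDegree ≤ D →
    Q.natDegree ≤ D → ∀ H : ℝ, (∀ k, |((P.coeff k : ℤ) : ℝ)| ≤ H) →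
      (∀ k, |((Q.coeff k : ℤ) : ℝ)| ≤ H) → C * H ^ (-κ) ≤ max |aeval u P| |aeval v Q|

theorem number_eq : number = GT.num3 := by
  funext o
  rcases o with f | t <;> rfl

theorem different_iff (i j : (ℤ × ℤ × ℤ) ⊕ Argument) : Different i j ↔ GT.Ind3 i j := by
  rcases i with f | t <;> rcases j with g | t' <;> exact Iff.rfl

/-- **The scale dichotomy for `π + e`, `π - e` and related numbers.** See the text at the beginning of
the file. -/
theorem result :
    -- (1) rational approximations of forms
    (∀ (ξ : ℝ) (F : Finset (ℤ × ℤ × ℤ)), (F : Set (ℤ × ℤ × ℤ)).Pairwise Independent →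
      ∀ θ M : ℝ, 0 < θ → 1 < M → 2 * θ * (M + 1) < 1 →
        Dichotomy (fun f : F => IsRat (form ξ f)) (fun X f => RatNear θ X (form ξ f)) M) ∧
    -- (2) algebraic approximations of forms
    (∀ (ξ : ℝ) (F : Finset (ℤ × ℤ × ℤ)), (F : Set (ℤ × ℤ × ℤ)).Pairwise Independent →
      ∀ (d : ℕ) (M : ℝ), 1 < M → ∃ θ₀ : ℝ, 0 < θ₀ ∧ ∀ θ : ℝ, 0 < θ → θ ≤ θ₀ →
        Dichotomy (fun f : F => AlgDeg d (form ξ f)) (fun X f => AlgNear d θ X (form ξ f)) M) ∧
    -- (3) algebraic approximations of forms in `π`, `e` and of tails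
    (∀ J : Finset ((ℤ × ℤ × ℤ) ⊕ Argument), (J : Set ((ℤ × ℤ × ℤ) ⊕ Argument)).Pairwise Different →
      ∀ (d : ℕ) (M : ℝ), 1 < M → ∃ θ₀ : ℝ, 0 < θ₀ ∧ ∀ θ : ℝ, 0 < θ → θ ≤ θ₀ →
        Dichotomy (fun j : J => AlgDeg d (number j)) (fun X j => AlgNear d θ X (number j)) M) ∧
    -- (4) the joint measure
    (∀ i j : (ℤ × ℤ × ℤ) ⊕ Argument, Different i j → JointMeasure (number i) (number j)) ∧
    -- (5) the case of `π + e` and `π - e` in (1), spelled out
    (∀ θ M : ℝ, 0 < θ → 1 < M → 2 * θ * (M + 1) < 1 →
      Dichotomy (fun i : Fin 2 => IsRat (![Real.pi + Real.exp 1, Real.pi - Real.exp 1] i))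
        (fun X i => RatNear θ X (![Real.pi + Real.exp 1, Real.pi - Real.exp 1] i)) M ∧
      ((∃ r : ℚ, Real.pi + Real.exp 1 = r ∨ Real.pi - Real.exp 1 = r) ↔ ∃ K : ℝ, ∀ X ≥ K,
        RatNear θ X (Real.pi + Real.exp 1) ∨ RatNear θ X (Real.pi - Real.exp 1))) := by
  refine ⟨GT.dich_rat, GT.dich_alg, fun J hJ d M hM => ?_, fun i j hij => ?_, ?_⟩
  · rw [number_eq]
    exact GT.dich3 J (fun i hi j hj hij => (different_iff i j).1 (hJ hi hj hij)) d M hM
  · rw [number_eq]
    exact GT.joint3 i j ((different_iff i j).1 hij)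
  · intro θ M hθ hM1 hM
    have key : Dichotomy (fun i : Fin 2 => IsRat (![Real.pi + Real.exp 1, Real.pi - Real.exp 1] i))
        (fun X i => RatNear θ X (![Real.pi + Real.exp 1, Real.pi - Real.exp 1] i)) M := by
      have e1 : GT.frm Real.pi (1, 1, 0) = Real.pi + Real.exp 1 := by simp [GT.frm]
      have e2 : GT.frm Real.pi (1, -1, 0) = Real.pi - Real.exp 1 := by
        simp [GT.frm, sub_eq_add_neg]
      have hp : ∀ ε : ℝ, 0 < ε → ∃ C : ℝ, 0 < C ∧ ∀ (a b : ℤ) (q s : ℕ), 0 < q → 0 < s →
          C * ((q : ℝ) ^ 1 * (s : ℝ) ^ 1) ^ (-(2 + ε)) ≤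
            max |Real.pi + Real.exp 1 - a / q| |Real.pi - Real.exp 1 - b / s| := by
        have h := GT.rat_forms Real.pi (1, 1, 0) (1, -1, 0) (by unfold GT.Ind; norm_num)
        rwa [e1, e2] at h
      have h := dichotomy_ratw (ι := Fin 2) ![Real.pi + Real.exp 1, Real.pi - Real.exp 1]
        (fun _ => 1) (fun _ => le_rfl) 2 (by norm_num) (fun i j hij ε hε => by
          obtain ⟨C, hC, hC'⟩ := hp ε hε
          refine ⟨C, hC, fun a b q s hq hs => ?_⟩
          fin_cases i <;> fin_cases j
          · exact absurd rfl hij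
          · exact hC' a b q s hq hs
          · have := hC' b a s q hs hq
            rw [max_comm, mul_comm ((s : ℝ) ^ 1)] at this
            exact this
          · exact absurd rfl hij) θ M hθ hM1 hM
      simpa using h
    refine ⟨key, ?_⟩
    have h := key.equiv
    constructor
    · rintro ⟨r, hr⟩
      obtain ⟨K, hK⟩ := h.1 (by
        rcases hr with hr | hr
        · exact ⟨0, r, hr⟩
        · exact ⟨1, r, hr⟩)
      refine ⟨K, fun X hX => ?_⟩
      obtain ⟨i, hi⟩ := hK X hX
      fin_cases i
      · exact Or.inl hi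
      · exact Or.inr hi
    · rintro ⟨K, hK⟩
      obtain ⟨i, r, hr⟩ := h.2 ⟨K, fun X hX => by
        rcases hK X hX with h1 | h1
        · exact ⟨0, h1⟩
        · exact ⟨1, h1⟩⟩
      fin_cases i
      · exact ⟨r, Or.inl hr⟩
      · exact ⟨r, Or.inr hr⟩

end Pool.Agent.Results.MP_363d4d_nt.ScaleDichotomy
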